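import Mathlib

set_option autoImplicit false
set_option linter.unusedSectionVars false

open MeasureTheory Topology

namespace Pool.Agent.CGrp

variable {G : Type*} [Group G] [TopologicalSpace G] [IsTopologicalGroup G] [CompactSpace G]
  [T2Space G]

/-- left translates of continuous functions: (lam g h) x = h (g⁻¹ x) -/
noncomputable def lam (g : G) (h : C(G, ℂ)) : C(G, ℂ) :=
  ⟨fun x => h (g⁻¹ * x), h.continuous.comp (continuous_const.mul continuous_id)⟩

@[simp] theorem lam_apply (g : G) (h : C(G, ℂ)) (x : G) : lam g h x = h (g⁻¹ * x) := rfl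

theorem lam_one (h : C(G, ℂ)) : lam 1 h = h := by
  ext x
  simp

theorem lam_mul (a b : G) (h : C(G, ℂ)) : lam (a * b) h = lam a (lam b h) := by
  ext x
  simp [mul_assoc]

/-- Translation is continuous for the sup norm (uniform continuity: the map (g, x) ↦ h (g⁻¹ x) is
continuous on G × G; curry it, e.g. `ContinuousMap.curry`, `ContinuousMap.continuous_of_continuous_uncurry`). -/
theorem continuous_lam (h : C(G, ℂ)) : Continuous (fun g : G => lam g h) := by
  refine ContinuousMap.continuous_of_continuous_uncurry _ ?_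
  exact h.continuous.comp ((continuous_fst.inv).mul continuous_snd)

theorem norm_lam (g : G) (h : C(G, ℂ)) : ‖lam g h‖ = ‖h‖ := by
  apply le_antisymm
  · refine (ContinuousMap.norm_le _ (norm_nonneg _)).mpr fun x => ?_
    exact h.norm_coe_le_norm (g⁻¹ * x)
  · refine (ContinuousMap.norm_le _ (norm_nonneg _)).mpr fun x => ?_
    have := (lam g h).norm_coe_le_norm (g * x)
    simpa using this

variable [MeasurableSpace G] [BorelSpace G]
  (μ : Measure G) [IsProbabilityMeasure μ] [μ.IsMulLeftInvariant] [μ.IsOpenPosMeasure]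

/-- the class of a continuous function in L² -/
noncomputable def cl (h : C(G, ℂ)) : Lp ℂ 2 μ := ContinuousMap.toLp 2 μ ℂ h

/-- (opS φ f) x = ⟪lam x φ, f⟫ = ∫ conj (φ (x⁻¹ y)) f y dμ y, a continuous function of x. -/
noncomputable def opS (φ : C(G, ℂ)) : Lp ℂ 2 μ →L[ℂ] C(G, ℂ) :=
  LinearMap.mkContinuous
    { toFun := fun f => ⟨fun x => inner ℂ (cl μ (lam x φ)) f,
        Continuous.inner (𝕜 := ℂ) ((ContinuousMap.toLp (E := ℂ) 2 μ ℂ).continuous.comp
          (continuous_lam φ)) continuous_const⟩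
      map_add' := fun f f' => by
        ext x
        exact inner_add_right (𝕜 := ℂ) (cl μ (lam x φ)) f f'
      map_smul' := fun c f => by
        ext x
        exact inner_smul_right (𝕜 := ℂ) (cl μ (lam x φ)) f c }
    (‖ContinuousMap.toLp (E := ℂ) 2 μ ℂ‖ * ‖φ‖) (by
      intro f
      refine (ContinuousMap.norm_le _ (by positivity)).mpr fun x => ?_
      refine (norm_inner_le_norm (𝕜 := ℂ) (cl μ (lam x φ)) f).trans ?_
      refine mul_le_mul_of_nonneg_right ?_ (norm_nonneg _)
      refine ((ContinuousMap.toLp (E := ℂ) 2 μ ℂ).le_opNorm _).trans ?_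
      rw [norm_lam])

theorem opS_apply (φ : C(G, ℂ)) (f : Lp ℂ 2 μ) (x : G) :
    opS μ φ f x = inner ℂ (cl μ (lam x φ)) f := rfl

/-- the convolution operator on L² -/
noncomputable def opT (φ : C(G, ℂ)) : Lp ℂ 2 μ →L[ℂ] Lp ℂ 2 μ :=
  (ContinuousMap.toLp 2 μ ℂ).comp (opS μ φ)

theorem opT_apply (φ : C(G, ℂ)) (f : Lp ℂ 2 μ) : opT μ φ f = cl μ (opS μ φ f) := rfl

private theorem opS_compact (φ : C(G, ℂ)) : IsCompactOperator (opS μ φ) := by
  rw [show (⇑(opS μ φ) : Lp ℂ 2 μ → C(G, ℂ)) = ⇑((opS μ φ : Lp ℂ 2 μ →ₗ[ℂ] C(G, ℂ))) from rfl]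
  rw [isCompactOperator_iff_isCompact_closure_image_closedBall
    (opS μ φ : Lp ℂ 2 μ →ₗ[ℂ] C(G, ℂ)) zero_lt_one]
  set e := ContinuousMap.isometryEquivBoundedOfCompact G ℂ with he
  set A : Set C(G, ℂ) := (opS μ φ : Lp ℂ 2 μ →ₗ[ℂ] C(G, ℂ)) '' Metric.closedBall 0 1 with hA
  set R : ℝ := ‖ContinuousMap.toLp (E := ℂ) 2 μ ℂ‖ * ‖φ‖ with hR
  have hAA : IsCompact (closure (e '' A)) := by
    refine BoundedContinuousFunction.arzela_ascoli (Metric.closedBall (0 : ℂ) R)
      (isCompact_closedBall 0 R) (e '' A) ?_ ?_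
    · rintro f x ⟨u, ⟨v, hv, rfl⟩, rfl⟩
      rw [mem_closedBall_zero_iff] at hv ⊢
      change ‖inner ℂ (cl μ (lam x φ)) v‖ ≤ R
      refine (norm_inner_le_norm (𝕜 := ℂ) (cl μ (lam x φ)) v).trans ?_
      have h1 : ‖cl μ (lam x φ)‖ ≤ R := by
        refine ((ContinuousMap.toLp (E := ℂ) 2 μ ℂ).le_opNorm _).trans ?_
        rw [norm_lam]
      calc ‖cl μ (lam x φ)‖ * ‖v‖ ≤ R * 1 :=
            mul_le_mul h1 hv (norm_nonneg _) (by positivity)
        _ = R := mul_one _
    · intro x₀
      rw [Metric.equicontinuousAt_iff_right]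
      intro ε hε
      have hc : Continuous fun x : G => cl μ (lam x φ) :=
        (ContinuousMap.toLp (E := ℂ) 2 μ ℂ).continuous.comp (continuous_lam φ)
      have h2 : ∀ᶠ x in 𝓝 x₀, dist (cl μ (lam x φ)) (cl μ (lam x₀ φ)) < ε :=
        hc.continuousAt.eventually (Metric.ball_mem_nhds _ hε)
      filter_upwards [h2] with x hx
      rintro ⟨f, u, ⟨v, hv, rfl⟩, rfl⟩
      rw [mem_closedBall_zero_iff] at hv
      change dist (inner ℂ (cl μ (lam x₀ φ)) v) (inner ℂ (cl μ (lam x φ)) v) < ε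
      rw [dist_eq_norm, ← inner_sub_left]
      refine (norm_inner_le_norm (𝕜 := ℂ) _ v).trans_lt ?_
      rw [dist_comm, dist_eq_norm] at hx
      calc ‖cl μ (lam x₀ φ) - cl μ (lam x φ)‖ * ‖v‖
          ≤ ‖cl μ (lam x₀ φ) - cl μ (lam x φ)‖ * 1 :=
            mul_le_mul_of_nonneg_left hv (norm_nonneg _)
        _ < ε := by rwa [mul_one]
  have h3 : closure A = e.symm '' closure (e '' A) := by
    have h4 := e.toHomeomorph.symm.image_closure (e '' A)
    have h5 : e.toHomeomorph.symm '' (e '' A) = A := by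
      rw [Set.image_image]
      refine (Set.image_congr (g := id) fun z _ => ?_).trans (Set.image_id A)
      exact e.symm_apply_apply z
    rw [h5] at h4
    exact h4.symm
  rw [h3]
  exact hAA.image e.symm.continuous

/-- The image of the unit ball under opS is bounded and equicontinuous:
|opS φ f x - opS φ f y| <= ‖cl (lam x φ - lam y φ)‖ ‖f‖ and `continuous_lam`. By Arzela-Ascoli
(`BoundedContinuousFunction.arzela_ascoli`, transported by `BoundedContinuousFunction.mkOfCompact`,
`ContinuousMap.isometryEquivBoundedOfCompact`) it is relatively compact in C(G, ℂ); compose with the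
continuous map toLp (`IsCompactOperator.clm_comp`). -/
theorem opT_compact (φ : C(G, ℂ)) : IsCompactOperator (opT μ φ) :=
  (opS_compact μ φ).clm_comp (ContinuousMap.toLp (E := ℂ) 2 μ ℂ)

end Pool.Agent.CGrp
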