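import Mathlib
import Pool.Agent.Lib.MP_fd6bc6_al.Mg.G006

set_option autoImplicit false
set_option linter.unusedSectionVars false

open Topology MeasureTheory Pool.Agent.CGrp

universe u v

namespace Pool.Agent.MoufangHaar

/-- An invariant measure on the closed normal subloop: M = {x : L // (dv L).pr x = 1} has an invariant probability measure μ for
the Borel σ-algebra (hasMean_dv, hasInt_iff_hasMean, HasInt.hasHaar); ν = μ.map Subtype.val; ν (Div L)ᶜ = 0, and for a ∈ Div L
ν.map (a * ·) = (μ.map (a' * ·)).map val (`Measure.map_map`, continuity). -/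
theorem exists_measure_div {L : Type*} [MLoop L] [TopologicalSpace L] [TopMLoop L]
    [CompactSpace L] [T2Space L] [MeasurableSpace L] [BorelSpace L] :
    ∃ ν : Measure L, IsProbabilityMeasure ν ∧ ν (Div L)ᶜ = 0 ∧
      ∀ a ∈ Div L, ν.map (fun x => a * x) = ν ∧ ν.map (fun x => x * a) = ν := by
  have hmem : ∀ x : L, (dv L).pr x = 1 ↔ x ∈ Div L := fun x => (dv L).pr_eq.trans (dv_iff x)
  have hM := hasMean_dv (L := L)
  let _ : MLoop {x : L // (dv L).pr x = 1} := kerM (dv L).pr_hom
  have _ : TopMLoop {x : L // (dv L).pr x = 1} := kerT (dv L).pr_hom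
  have _ : CompactSpace {x : L // (dv L).pr x = 1} :=
    isCompact_iff_compactSpace.mp ((isClosed_eq (dv L).pr_cont continuous_const).isCompact)
  obtain ⟨μ, hp, hμ⟩ := (hasInt_iff_hasMean.mpr hM).hasHaar
  have hval : Measurable (Subtype.val : {x : L // (dv L).pr x = 1} → L) := measurable_subtype_coe
  refine ⟨μ.map Subtype.val, Measure.isProbabilityMeasure_map hval.aemeasurable, ?_,
    fun a ha => ⟨?_, ?_⟩⟩
  · rw [Measure.map_apply hval (div_closed.isOpen_compl.measurableSet)]
    have h1 : (Subtype.val : {x : L // (dv L).pr x = 1} → L) ⁻¹' (Div L)ᶜ = ∅ := by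
      ext x
      constructor
      · intro hx
        exact hx ((hmem x.1).mp x.2)
      · intro hx
        exact hx.elim
    rw [h1, measure_empty]
  · rw [Measure.map_map (TopMLoop.continuous_mul_left a).measurable hval]
    conv_rhs => rw [← (hμ ⟨a, (hmem a).mpr ha⟩).1,
      Measure.map_map hval (TopMLoop.continuous_mul_left _).measurable]
    rfl
  · rw [Measure.map_map (TopMLoop.continuous_mul_right a).measurable hval]
    conv_rhs => rw [← (hμ ⟨a, (hmem a).mpr ha⟩).2,
      Measure.map_map hval (TopMLoop.continuous_mul_right _).measurable]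
    rfl

/-- For a continuous surjective homomorphism φ with kernel Div L: HasHaar L ↔ HasHaar Q (hasMean_ext for φ; the kernel loop of φ
has a mean because of hasMean_dv: it is the same set, HasMean.image with the identity). -/
theorem hasHaar_iff_div {L Q : Type*} [MLoop L] [TopologicalSpace L] [TopMLoop L]
    [CompactSpace L] [T2Space L] [MeasurableSpace L] [BorelSpace L] [MLoop Q]
    [TopologicalSpace Q] [TopMLoop Q] [CompactSpace Q] [T2Space Q] [MeasurableSpace Q]
    [BorelSpace Q] (φ : L → Q) (hφ : IsMHom φ) (hc : Continuous φ)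
    (hs : Function.Surjective φ) (hk : ∀ x, φ x = 1 ↔ x ∈ Div L) : HasHaar L ↔ HasHaar Q := by
  have hmem : ∀ x : L, (dv L).pr x = 1 ↔ x ∈ Div L := fun x => (dv L).pr_eq.trans (dv_iff x)
  have hM := hasMean_dv (L := L)
  have hK : @HasMean {x : L // φ x = 1} (kerM hφ) _ (kerT hφ) := by
    let _ : MLoop {x : L // (dv L).pr x = 1} := kerM (dv L).pr_hom
    have _ : TopMLoop {x : L // (dv L).pr x = 1} := kerT (dv L).pr_hom
    let _ : MLoop {x : L // φ x = 1} := kerM hφ
    have _ : TopMLoop {x : L // φ x = 1} := kerT hφ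
    refine hM.image (fun x => (⟨x.1, (hk x.1).mpr ((hmem x.1).mp x.2)⟩ : {x : L // φ x = 1}))
      ⟨fun _ _ => rfl⟩ (continuous_subtype_val.subtype_mk _) ?_
    rintro ⟨x, hx⟩
    exact ⟨⟨x, (hmem x).mpr ((hk x).mp hx)⟩, rfl⟩
  constructor
  · intro h
    have h1 : HasMean L := hasInt_iff_hasMean.mp h.hasInt
    exact (hasInt_iff_hasMean.mpr ((hasMean_ext φ hφ hc hs).mp h1).2).hasHaar
  · intro h
    have h1 : HasMean Q := hasInt_iff_hasMean.mp h.hasInt
    exact (hasInt_iff_hasMean.mpr ((hasMean_ext φ hφ hc hs).mpr ⟨hK, h1⟩)).hasHaar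

/-- THE RESULT. E = Div L (A.pow is npw); closed: div_closed; normal: normal_of_cc A (dv L) and dv_iff; connected: div_connected;
the measure: exists_measure_div; quotients: hasHaar_iff_div, and Div Q = φ '' Div L = {1} (div_image), powers_small. -/
theorem divisible_part (L : Type u) [TopologicalSpace L] [CompactSpace L] [T2Space L]
    [MeasurableSpace L] [BorelSpace L] (A : TopMoufang L) :
    ∃ E : Set L, IsClosed E ∧ A.IsNormal Set.univ E ∧ IsConnected E ∧
      (∀ x, x ∈ E ↔ ∀ n : ℕ, 0 < n → ∃ y, A.pow y n = x) ∧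
      (∃ ν : Measure L, IsProbabilityMeasure ν ∧ ν Eᶜ = 0 ∧ ∀ a ∈ E,
        ν.map (fun x => A.mul a x) = ν ∧ ν.map (fun x => A.mul x a) = ν) ∧
      ∀ (Q : Type v) [TopologicalSpace Q] [CompactSpace Q] [T2Space Q] [MeasurableSpace Q]
        [BorelSpace Q] (B : TopMoufang Q) (φ : L → Q), Continuous φ → Function.Surjective φ →
        (∀ x y, φ (A.mul x y) = B.mul (φ x) (φ y)) → (∀ x, φ x = B.e ↔ x ∈ E) →
        (A.HasHaar ↔ B.HasHaar) ∧
        ∀ U ∈ 𝓝 B.e, ∃ m : ℕ, 0 < m ∧ ∀ x, B.pow x m ∈ U := by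
  let _ : MLoop L := A.toM
  have _ : TopMLoop L := A.toT
  have hset : {x : L | (dv L).r x A.e} = Div L := by
    ext x
    exact dv_iff x
  refine ⟨Div L, div_closed, ?_, div_connected, fun x => Iff.rfl, exists_measure_div, ?_⟩
  · have h1 := normal_of_cc A (dv L)
    rw [hset] at h1
    exact h1
  · intro Q _ _ _ _ _ B φ hc hs hmul hk
    let _ : MLoop Q := B.toM
    have _ : TopMLoop Q := B.toT
    have hφ : IsMHom φ := ⟨hmul⟩
    refine ⟨hasHaar_iff_div φ hφ hc hs hk, ?_⟩
    have h1 : Div Q = {1} := by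
      rw [← div_image φ hφ hc hs]
      ext q
      constructor
      · rintro ⟨x, hx, rfl⟩
        exact (hk x).mpr hx
      · intro hq
        obtain ⟨x, rfl⟩ := hs q
        exact ⟨x, (hk x).mp hq, rfl⟩
    intro U hU
    exact powers_small h1 U hU

end Pool.Agent.MoufangHaar
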